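import Mathlib
import Pool.Agent.H.MP_b669e1_gt.A
set_option autoImplicit false
namespace Pool.Agent.Results.MP_b669e1_gt.Yes
open Set MeasureTheory
open scoped ContDiff

theorem result : ∃ (n : ℕ) (K : Set (Fin n → ℝ)), Odd n ∧ IsCompact K ∧ (interior K).Nonempty ∧
    IsConnected (frontier K) ∧
    (∃ (U : Set (Fin n → ℝ)) (g : (Fin n → ℝ) → ℝ), IsOpen U ∧ ContDiffOn ℝ ∞ g U ∧
      K ∩ U = {z ∈ U | g z ≤ 0} ∧ frontier K = {z ∈ U | g z = 0} ∧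
      ∀ z ∈ frontier K, fderiv ℝ g z ≠ 0) ∧
    (∃ Φ : MvPolynomial (Fin n ⊕ Fin 2) ℝ,
      (∃ (ξ : Fin n → ℝ) (t w : ℝ), ∑ i, ξ i ^ 2 = 1 ∧
        MvPolynomial.eval (Sum.elim ξ ![t, w]) Φ ≠ 0) ∧
      ∀ (ξ : Fin n → ℝ) (t : ℝ), ∑ i, ξ i ^ 2 = 1 →
        MvPolynomial.eval (Sum.elim ξ
          ![t, (volume (K ∩ {x | ∑ i, ξ i * x i ≤ t})).toReal]) Φ = 0 ∧
        MvPolynomial.eval (Sum.elim ξ
          ![t, (volume (K ∩ {x | t ≤ ∑ i, ξ i * x i})).toReal]) Φ = 0) ∧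
    ¬ ∃ A : (Fin n → ℝ) ≃ᵃ[ℝ] (Fin n → ℝ), K = A '' {x | ∑ i, x i ^ 2 ≤ 1} :=
  Pool.Agent.H.MP_b669e1_gt.main

end Pool.Agent.Results.MP_b669e1_gt.Yes
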